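import Pool.Agent.H94.AT.BX1

set_option autoImplicit false

/-!
# [H94 AT CN1] Almost all monic polynomials of a box have a good reduction

`P p`: `p ≡ 1` modulo `ℓ`; `G p g`: the property of the reduction, true for at least `κ p ^ n` of the monic polynomials of degree `n` over `ZMod p` for `n ≥ n₀(p)`, for every prime `p ≥ p₀`, `p ≡ 1` modulo `ℓ`.
Choose `s` with `(1 - κ) ^ s ≤ ε / 2` and a set `S` of `s` different primes `≥ p₀`, `≡ 1` modulo `ℓ` (`Nat.exists_prime_gt_modEq_one`, infinitely many), `N₀ = ∏ p ∈ S, p`, `n₀ = max` over `S`.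
* `N₀ ∣ N`: `bx1` with `Bad p g = ¬ G p g`: each factor is at most `1 - κ` (`mo1_card`), so at most `N ^ n ε / 2` polynomials are bad; `bx1_card`, `bx1_fin`: the complement.
* `M (n + 1) ≤ N`, `M = ⌈2 N₀ / ε⌉`: `N' = N₀ ⌊N / N₀⌋ > N - N₀`, `Bx N' n D → Bx N n D`, `(N' / N) ^ n ≥ (1 - N₀ / N) ^ n ≥ 1 - n N₀ / N ≥ 1 - ε / 2` (Bernoulli), and `(1 - ε / 2) ^ 2 ≥ 1 - ε` (for `ε > 1` the claim is trivial).
-/

namespace Pool.Agent.H94.AT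

open Polynomial

private theorem cn1_inf {ℓ : ℕ} (hℓ : ℓ ≠ 0) (p₀ s : ℕ) : ∃ S : Finset ℕ, S.card = s ∧
    ∀ p ∈ S, p.Prime ∧ p₀ ≤ p ∧ p ≡ 1 [MOD ℓ] := by
  have h : {p : ℕ | p.Prime ∧ p₀ ≤ p ∧ p ≡ 1 [MOD ℓ]}.Infinite := by
    refine Set.infinite_of_forall_exists_gt fun a => ?_
    obtain ⟨p, h1, h2, h3⟩ := Nat.exists_prime_gt_modEq_one (k := ℓ) (max a p₀) hℓ
    exact ⟨p, ⟨h1, (le_max_right _ _).trans h2.le, h3⟩, lt_of_le_of_lt (le_max_left _ _) h2⟩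
  obtain ⟨S, hS, hc⟩ := h.exists_subset_card_eq s
  exact ⟨S, hc, fun p hp => hS (Finset.mem_coe.mpr hp)⟩

private theorem cn1_fac {κ : ℝ} {p n : ℕ} (hp : p.Prime) {G : (ZMod p)[X] → Prop}
    (h : κ * (p : ℝ) ^ n ≤ (Nat.card {g : (ZMod p)[X] // (g.Monic ∧ g.natDegree = n) ∧ G g} : ℝ)) :
    (Nat.card {g : (ZMod p)[X] // g.Monic ∧ g.natDegree = n ∧ ¬ G g} : ℝ) / (p : ℝ) ^ n ≤
      1 - κ := by
  haveI : Fact p.Prime := ⟨hp⟩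
  obtain ⟨h1, h2⟩ := mo1_card (F := ZMod p) n
  obtain ⟨A, hA⟩ : ∃ A : Set (ZMod p)[X], A = {g | g.Monic ∧ g.natDegree = n} := ⟨_, rfl⟩
  obtain ⟨T, hT⟩ : ∃ T : Set (ZMod p)[X], T = {g | G g} := ⟨_, rfl⟩
  have e1 : Nat.card {g : (ZMod p)[X] // (g.Monic ∧ g.natDegree = n) ∧ G g} = (A ∩ T).ncard := by
    rw [← Nat.card_coe_set_eq, hA, hT]
    rfl
  have e2 : Nat.card {g : (ZMod p)[X] // g.Monic ∧ g.natDegree = n ∧ ¬ G g} = (A \ T).ncard := by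
    rw [← Nat.card_coe_set_eq, hA, hT]
    refine Nat.card_congr (Equiv.subtypeEquivRight fun g => ?_)
    constructor
    · rintro ⟨a, b, c⟩
      exact ⟨⟨a, b⟩, c⟩
    · rintro ⟨⟨a, b⟩, c⟩
      exact ⟨a, b, c⟩
  have e3 : Nat.card {g : (ZMod p)[X] // g.Monic ∧ g.natDegree = n} = A.ncard := by
    rw [← Nat.card_coe_set_eq, hA]
    rfl
  have e4 : (A ∩ T).ncard + (A \ T).ncard = A.ncard :=
    Set.ncard_inter_add_ncard_diff_eq_ncard A T (by rw [hA]; exact h2)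
  rw [← e1, ← e2, ← e3, h1, Nat.card_zmod] at e4
  have hp0 : (0 : ℝ) < (p : ℝ) := by exact_mod_cast hp.pos
  have hpn : (0 : ℝ) < (p : ℝ) ^ n := pow_pos hp0 n
  rw [div_le_iff₀ hpn]
  have e5 : (Nat.card {g : (ZMod p)[X] // (g.Monic ∧ g.natDegree = n) ∧ G g} : ℝ) +
      (Nat.card {g : (ZMod p)[X] // g.Monic ∧ g.natDegree = n ∧ ¬ G g} : ℝ) = (p : ℝ) ^ n := by
    exact_mod_cast e4
  linarith

private theorem cn1_div {ℓ : ℕ} {κ : ℝ} (hκ1 : κ ≤ 1) (p₀ : ℕ)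
    (G : (p : ℕ) → (ZMod p)[X] → Prop) (S : Finset ℕ)
    (hS : ∀ p ∈ S, p.Prime ∧ p₀ ≤ p ∧ p ≡ 1 [MOD ℓ]) {N₀ : ℕ} (hN₀ : ∀ p ∈ S, p ∣ N₀) {n : ℕ}
    (h : ∀ p ∈ S,
      κ * (p : ℝ) ^ n ≤ (Nat.card {g : (ZMod p)[X] // (g.Monic ∧ g.natDegree = n) ∧ G p g} : ℝ))
    {N : ℕ} (hN : 0 < N) (hd : N₀ ∣ N) :
    (1 - (1 - κ) ^ S.card) * (N : ℝ) ^ n ≤
        (Nat.card {D : ℤ[X] // Bx N n D ∧ ∃ p, p ∣ N₀ ∧ p.Prime ∧ p₀ ≤ p ∧ p ≡ 1 [MOD ℓ] ∧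
          G p (D.map (Int.castRingHom (ZMod p)))} : ℝ) := by
  have h1 := bx1 S (fun p hp => (hS p hp).1) hN (fun p hp => (hN₀ p hp).trans hd) n
    (fun p g => ¬ G p g)
  have h2 : ∏ p ∈ S, ((Nat.card {g : (ZMod p)[X] // g.Monic ∧ g.natDegree = n ∧
        ¬ G p g} : ℝ) / (p : ℝ) ^ n) ≤ (1 - κ) ^ S.card := by
    rw [← Finset.prod_const]
    exact Finset.prod_le_prod (fun p _ => by positivity) (fun p hp => cn1_fac (hS p hp).1 (h p hp))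
  obtain ⟨A, hA⟩ : ∃ A : Set ℤ[X], A = {D | Bx N n D} := ⟨_, rfl⟩
  obtain ⟨B, hB⟩ : ∃ B : Set ℤ[X], B = {D | Bx N n D ∧
    ∀ p ∈ S, ¬ G p (D.map (Int.castRingHom (ZMod p)))} := ⟨_, rfl⟩
  obtain ⟨T, hT⟩ : ∃ T : Set ℤ[X], T = {D | Bx N n D ∧ ∃ p, p ∣ N₀ ∧ p.Prime ∧ p₀ ≤ p ∧
    p ≡ 1 [MOD ℓ] ∧ G p (D.map (Int.castRingHom (ZMod p)))} := ⟨_, rfl⟩
  have e1 : Nat.card {D : ℤ[X] // Bx N n D} = A.ncard := by
    rw [← Nat.card_coe_set_eq, hA]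
    rfl
  have e2 : Nat.card {D : ℤ[X] // Bx N n D ∧
      ∀ p ∈ S, ¬ G p (D.map (Int.castRingHom (ZMod p)))} = B.ncard := by
    rw [← Nat.card_coe_set_eq, hB]
    rfl
  have e3 : Nat.card {D : ℤ[X] // Bx N n D ∧ ∃ p, p ∣ N₀ ∧ p.Prime ∧ p₀ ≤ p ∧ p ≡ 1 [MOD ℓ] ∧
      G p (D.map (Int.castRingHom (ZMod p)))} = T.ncard := by
    rw [← Nat.card_coe_set_eq, hT]
    rfl
  have hfin := bx1_fin N n
  have hsub : A ⊆ B ∪ T := by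
    intro D hD
    rw [hA] at hD
    by_cases hb : ∀ p ∈ S, ¬ G p (D.map (Int.castRingHom (ZMod p)))
    · left
      rw [hB]
      exact ⟨hD, hb⟩
    · right
      push Not at hb
      obtain ⟨p, hp, hG⟩ := hb
      rw [hT]
      exact ⟨hD, p, hN₀ p hp, (hS p hp).1, (hS p hp).2.1, (hS p hp).2.2, hG⟩
  have hBf : B.Finite := hfin.subset (by rw [hB]; exact fun D hD => hD.1)
  have hTf : T.Finite := hfin.subset (by rw [hT]; exact fun D hD => hD.1)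
  have h3 : A.ncard ≤ B.ncard + T.ncard :=
    (Set.ncard_le_ncard hsub (hBf.union hTf)).trans (Set.ncard_union_le B T)
  rw [← e1, ← e2, ← e3, bx1_card] at h3
  have h4 : (N : ℝ) ^ n ≤ (Nat.card {D : ℤ[X] // Bx N n D ∧
      ∀ p ∈ S, ¬ G p (D.map (Int.castRingHom (ZMod p)))} : ℝ) +
      (Nat.card {D : ℤ[X] // Bx N n D ∧ ∃ p, p ∣ N₀ ∧ p.Prime ∧ p₀ ≤ p ∧ p ≡ 1 [MOD ℓ] ∧
      G p (D.map (Int.castRingHom (ZMod p)))} : ℝ) := by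
    exact_mod_cast h3
  rw [h1] at h4
  have h5 := mul_le_mul_of_nonneg_left h2 (by positivity : (0 : ℝ) ≤ (N : ℝ) ^ n)
  nlinarith

private theorem cn1_box {N' N : ℕ} (hle : N' ≤ N) (n : ℕ) (P : ℤ[X] → Prop) :
    Nat.card {D : ℤ[X] // Bx N' n D ∧ P D} ≤ Nat.card {D : ℤ[X] // Bx N n D ∧ P D} := by
  have hsub : {D : ℤ[X] | Bx N' n D ∧ P D} ⊆ {D : ℤ[X] | Bx N n D ∧ P D} := by
    rintro D ⟨⟨h1, h2, h3⟩, h4⟩
    refine ⟨⟨h1, h2, fun i hi => ⟨(h3 i hi).1, (h3 i hi).2.trans ?_⟩⟩, h4⟩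
    exact_mod_cast hle
  have hf : {D : ℤ[X] | Bx N n D ∧ P D}.Finite := (bx1_fin N n).subset fun D hD => hD.1
  have h := Set.ncard_le_ncard hsub hf
  rw [← Nat.card_coe_set_eq, ← Nat.card_coe_set_eq] at h
  exact h

theorem cn1 {ℓ : ℕ} (hℓ : ℓ ≠ 0) {κ : ℝ} (hκ : 0 < κ) (hκ1 : κ ≤ 1) (p₀ : ℕ)
    (G : (p : ℕ) → (ZMod p)[X] → Prop)
    (h : ∀ p : ℕ, p.Prime → p₀ ≤ p → p ≡ 1 [MOD ℓ] → ∃ n₀ : ℕ, ∀ n : ℕ, n₀ ≤ n →
      κ * (p : ℝ) ^ n ≤ (Nat.card {g : (ZMod p)[X] // (g.Monic ∧ g.natDegree = n) ∧ G p g} : ℝ))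
    (ε : ℝ) (hε : 0 < ε) : ∃ N₀ n₀ M : ℕ, 0 < N₀ ∧ ∀ N n : ℕ, 0 < N → n₀ ≤ n →
      (N₀ ∣ N ∨ M * (n + 1) ≤ N) → (1 - ε) * (N : ℝ) ^ n ≤
        (Nat.card {D : ℤ[X] // Bx N n D ∧ ∃ p, p ∣ N₀ ∧ p.Prime ∧ p₀ ≤ p ∧ p ≡ 1 [MOD ℓ] ∧
          G p (D.map (Int.castRingHom (ZMod p)))} : ℝ) := by
  obtain ⟨s, hs⟩ := exists_pow_lt_of_lt_one (half_pos hε) (by linarith : 1 - κ < 1)
  obtain ⟨S, hSc, hS⟩ := cn1_inf hℓ p₀ s
  have h' : ∀ p : ℕ, ∃ n₀ : ℕ, p ∈ S → ∀ n : ℕ, n₀ ≤ n →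
      κ * (p : ℝ) ^ n ≤ (Nat.card {g : (ZMod p)[X] // (g.Monic ∧ g.natDegree = n) ∧ G p g} : ℝ) := by
    intro p
    by_cases hp : p ∈ S
    · obtain ⟨n₀, hn₀⟩ := h p (hS p hp).1 (hS p hp).2.1 (hS p hp).2.2
      exact ⟨n₀, fun _ => hn₀⟩
    · exact ⟨0, fun hp' => absurd hp' hp⟩
  choose nn hnn using h'
  have hN₀pos : 0 < ∏ p ∈ S, p := Finset.prod_pos fun p hp => (hS p hp).1.pos
  obtain ⟨N₀, hN₀⟩ : ∃ N₀ : ℕ, N₀ = ∏ p ∈ S, p := ⟨_, rfl⟩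
  rw [← hN₀] at hN₀pos
  have hdvd : ∀ p ∈ S, p ∣ N₀ := fun p hp => by
    rw [hN₀]
    exact Finset.dvd_prod_of_mem _ hp
  have core : ∀ N n : ℕ, 0 < N → S.sup nn ≤ n → N₀ ∣ N → (1 - ε / 2) * (N : ℝ) ^ n ≤
        (Nat.card {D : ℤ[X] // Bx N n D ∧ ∃ p, p ∣ N₀ ∧ p.Prime ∧ p₀ ≤ p ∧ p ≡ 1 [MOD ℓ] ∧
          G p (D.map (Int.castRingHom (ZMod p)))} : ℝ) := by
    intro N n hN hn hd
    have h1 := cn1_div hκ1 p₀ G S hS hdvd (n := n)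
      (fun p hp => hnn p hp n ((Finset.le_sup hp).trans hn)) hN hd
    rw [hSc] at h1
    refine le_trans ?_ h1
    exact mul_le_mul_of_nonneg_right (by linarith) (by positivity)
  refine ⟨N₀, S.sup nn, ⌈2 * (N₀ : ℝ) / ε⌉₊, hN₀pos, ?_⟩
  intro N n hN hn hor
  rcases hor with hd | hM
  · refine le_trans ?_ (core N n hN hn hd)
    exact mul_le_mul_of_nonneg_right (by linarith) (by positivity)
  · by_cases hε1 : 1 < ε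
    · have h1 : (1 - ε) * (N : ℝ) ^ n ≤ 0 :=
        mul_nonpos_of_nonpos_of_nonneg (by linarith) (by positivity)
      exact h1.trans (Nat.cast_nonneg _)
    · have hε1' : ε ≤ 1 := not_lt.mp hε1
      have hN₀r : (0 : ℝ) < (N₀ : ℝ) := by exact_mod_cast hN₀pos
      have hNr : (0 : ℝ) < (N : ℝ) := by exact_mod_cast hN
      have hMr : 2 * (N₀ : ℝ) / ε * ((n : ℝ) + 1) ≤ (N : ℝ) := by
        have h1 : (⌈2 * (N₀ : ℝ) / ε⌉₊ : ℝ) * ((n : ℝ) + 1) ≤ (N : ℝ) := by exact_mod_cast hM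
        refine le_trans ?_ h1
        exact mul_le_mul_of_nonneg_right (Nat.le_ceil _) (by positivity)
      have hMr2 : 2 * (N₀ : ℝ) * ((n : ℝ) + 1) ≤ ε * (N : ℝ) := by
        rw [div_mul_eq_mul_div, div_le_iff₀ hε] at hMr
        linarith
      have hnr : (0 : ℝ) ≤ (n : ℝ) := Nat.cast_nonneg n
      have hNN : (N₀ : ℝ) ≤ (N : ℝ) := by nlinarith
      have hNN' : N₀ ≤ N := by exact_mod_cast hNN
      obtain ⟨N', hN'⟩ : ∃ N' : ℕ, N' = N₀ * (N / N₀) := ⟨_, rfl⟩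
      have hq1 : 1 ≤ N / N₀ := (Nat.one_le_div_iff hN₀pos).mpr hNN'
      have hN'pos : 0 < N' := by
        rw [hN']
        exact Nat.mul_pos hN₀pos (by omega)
      have hN'le : N' ≤ N := by
        rw [hN']
        exact Nat.mul_div_le N N₀
      have hN'ge : N ≤ N' + N₀ := by
        have h1 := Nat.div_add_mod N N₀
        have h2 := Nat.mod_lt N hN₀pos
        omega
      have hN'ger : (N : ℝ) - (N₀ : ℝ) ≤ (N' : ℝ) := by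
        have h1 : (N : ℝ) ≤ (N' : ℝ) + (N₀ : ℝ) := by exact_mod_cast hN'ge
        linarith
      have h1 := core N' n hN'pos hn (by rw [hN']; exact dvd_mul_right _ _)
      have h2 : (Nat.card {D : ℤ[X] // Bx N' n D ∧ ∃ p, p ∣ N₀ ∧ p.Prime ∧ p₀ ≤ p ∧
          p ≡ 1 [MOD ℓ] ∧ G p (D.map (Int.castRingHom (ZMod p)))} : ℝ) ≤
          (Nat.card {D : ℤ[X] // Bx N n D ∧ ∃ p, p ∣ N₀ ∧ p.Prime ∧ p₀ ≤ p ∧
          p ≡ 1 [MOD ℓ] ∧ G p (D.map (Int.castRingHom (ZMod p)))} : ℝ) := by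
        exact_mod_cast cn1_box hN'le n (fun D => ∃ p, p ∣ N₀ ∧ p.Prime ∧ p₀ ≤ p ∧
          p ≡ 1 [MOD ℓ] ∧ G p (D.map (Int.castRingHom (ZMod p))))
      refine le_trans ?_ (h1.trans h2)
      have h3 : (1 - ε / 2) * (N : ℝ) ^ n ≤ (N' : ℝ) ^ n := by
        have h4 : 1 + (n : ℝ) * (-((N₀ : ℝ) / (N : ℝ))) ≤ (1 + -((N₀ : ℝ) / (N : ℝ))) ^ n := by
          apply one_add_mul_le_pow
          have : (N₀ : ℝ) / (N : ℝ) ≤ 1 := by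
            rw [div_le_one hNr]
            exact hNN
          linarith
        have h5 : 1 - ε / 2 ≤ 1 + (n : ℝ) * (-((N₀ : ℝ) / (N : ℝ))) := by
          have h6 : (n : ℝ) * ((N₀ : ℝ) / (N : ℝ)) ≤ ε / 2 := by
            rw [mul_div_assoc', div_le_iff₀ hNr]
            nlinarith
          linarith
        have h7 : (1 + -((N₀ : ℝ) / (N : ℝ))) ^ n * (N : ℝ) ^ n = ((N : ℝ) - (N₀ : ℝ)) ^ n := by
          rw [← mul_pow]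
          congr 1
          field_simp
          ring
        calc (1 - ε / 2) * (N : ℝ) ^ n ≤ (1 + -((N₀ : ℝ) / (N : ℝ))) ^ n * (N : ℝ) ^ n :=
              mul_le_mul_of_nonneg_right (h5.trans h4) (by positivity)
          _ = ((N : ℝ) - (N₀ : ℝ)) ^ n := h7
          _ ≤ (N' : ℝ) ^ n := pow_le_pow_left₀ (by linarith) hN'ger n
      have h8 : (0 : ℝ) ≤ (N : ℝ) ^ n := by positivity
      calc (1 - ε) * (N : ℝ) ^ n ≤ (1 - ε / 2) * ((1 - ε / 2) * (N : ℝ) ^ n) := by nlinarith [mul_nonneg (sq_nonneg ε) h8]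
        _ ≤ (1 - ε / 2) * (N' : ℝ) ^ n := mul_le_mul_of_nonneg_left h3 (by linarith)

end Pool.Agent.H94.AT
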