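import Pool.Agent.H94.AT.CLU
import Pool.Agent.H94.PN.ALLO
import Pool.Agent.H94.PN.ALL2

set_option autoImplicit false

/-!
# [H94 AT UNI] A uniform share of the twists has a minimal Selmer group

`κ = (wt 1 ℓ 0 / Sm 1 ℓ 0) / 4` for odd `ℓ`, `κ = (wt 2 2 0 / Sm 2 2 0) / 4` for `ℓ = 2` (positive: `wt_pos`, `sm_pos`), and `min κ 1`.
`lawO`, `law2` with `r = 0`, `ε = half of the constant` on `Cls (dl A) n`, `clu` (`card Cls ≥ q ^ n / 2`), `rkS_spec` (`n ≥ 1`): `rkS = 0 ↔ card SelC = ℓ ^ (m - 1 + 0)`.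
For `ℓ = 2`: `law2` needs a pair `Dtc 2 A i k`: from `Dtv A v` (see how `all2` in `H94/PN/ALL2.lean` gets it).
-/

namespace Pool.Agent.H94.AT

open Polynomial
open Pool.Agent.H94.PC
open Pool.Agent.H94.PL
open Pool.Agent.H94.PN

private theorem uni_calc {a X N E : ℝ} (ha : 0 < a) (h1 : |X - a * N| ≤ a / 2 * N)
    (h2 : E / 2 ≤ N) : a / 4 * E ≤ X := by
  have h3 := (abs_le.1 h1).1
  nlinarith

open Classical in
theorem uno {ℓ : ℕ} [hl : Fact ℓ.Prime] (h2 : ℓ ≠ 2) : ∃ κ : ℝ, 0 < κ ∧ κ ≤ 1 ∧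
    ∀ (F : Type) [Field F] [Finite F] [DecidableEq (RatFunc F)] (m α : ℕ) (c : F) (A : Fin m → F[X]),
      ℓ ∣ Nat.card F - 1 → Nat.Coprime m ℓ → 2 ≤ m → ℓ ∣ α * m + 1 → c ≠ 0 →
      (∀ i k, i ≠ k → A i ≠ A k) → GenA ℓ A → 8 + 4 * (dl A).natDegree ≤ Nat.card F →
      ∃ n₀ : ℕ, ∀ n : ℕ, n₀ ≤ n → κ * (Nat.card F : ℝ) ^ n ≤
        (((Cls (dl A) n).filter fun D => Nat.card (SelC ℓ α c A D) = ℓ ^ (m - 1)).card : ℝ) := by
  have hℓ1 : (1 : ℝ) < (ℓ : ℝ) := by exact_mod_cast hl.out.one_lt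
  obtain ⟨a, ha⟩ : ∃ a : ℝ, a = wt 1 (ℓ : ℝ) 0 / Sm 1 (ℓ : ℝ) 0 := ⟨_, rfl⟩
  have ha0 : 0 < a := by
    rw [ha]
    exact div_pos (wt_pos one_pos hℓ1 0) (sm_pos one_pos hℓ1 0)
  refine ⟨min (a / 4) 1, lt_min (by positivity) one_pos, min_le_right _ _, ?_⟩
  intro F _ _ _ m α c A hq hm hm2 hα hc hA hG hbig
  obtain ⟨n₀, hn₀⟩ := lawO h2 hq hm hm2 hα hc hA hG 0 (a / 2) (by positivity)
  refine ⟨max n₀ 1, fun n hn => ?_⟩
  have hn1 : 1 ≤ n := (le_max_right _ _).trans hn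
  have h1 := hn₀ n ((le_max_left _ _).trans hn)
  have h3 := clu (all2_dl0 hA) hbig n hn1
  rw [← ha] at h1
  have h4 := uni_calc ha0 h1 h3
  have h5 : (Cls (dl A) n).filter (fun D => Nat.card (SelC ℓ α c A D) = ℓ ^ (m - 1)) =
      (Cls (dl A) n).filter fun D => rkS ℓ α c A D = 0 := by
    refine Finset.filter_congr fun D hD => ?_
    have h6 := rkS_spec hq hm hα hc hA hn1 hD 0
    rw [Nat.add_zero] at h6
    exact h6
  rw [h5]
  refine le_trans ?_ h4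
  exact mul_le_mul_of_nonneg_right (min_le_left _ _) (by positivity)

open Classical in
theorem un2 : ∃ κ : ℝ, 0 < κ ∧ κ ≤ 1 ∧
    ∀ (F : Type) [Field F] [Finite F] [DecidableEq (RatFunc F)] (m α : ℕ) (c : F) (A : Fin m → F[X]),
      2 ∣ Nat.card F - 1 → Nat.Coprime m 2 → 3 ≤ m → 2 ∣ α * m + 1 → c ≠ 0 →
      (∀ i k, i ≠ k → A i ≠ A k) → GenA 2 A → (∃ v, Dtv A v) →
      8 + 4 * (dl A).natDegree ≤ Nat.card F →
      ∃ n₀ : ℕ, ∀ n : ℕ, n₀ ≤ n → κ * (Nat.card F : ℝ) ^ n ≤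
        (((Cls (dl A) n).filter fun D => Nat.card (SelC 2 α c A D) = 2 ^ (m - 1)).card : ℝ) := by
  obtain ⟨a, ha⟩ : ∃ a : ℝ, a = wt 2 2 0 / Sm 2 2 0 := ⟨_, rfl⟩
  have ha0 : 0 < a := by
    rw [ha]
    exact div_pos (wt_pos two_pos (by norm_num) 0) (sm_pos two_pos (by norm_num) 0)
  refine ⟨min (a / 4) 1, lt_min (by positivity) one_pos, min_le_right _ _, ?_⟩
  intro F _ _ _ m α c A hq hm hm3 hα hc hA hG hv hbig
  obtain ⟨v, hvi, i, k, hik, h6, h7⟩ := hv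
  have hd : Pool.Agent.H94.PM.Dtc 2 A i k := ⟨hik, v, hvi, h6, h7⟩
  obtain ⟨n₀, hn₀⟩ := law2 hq hm hm3 hα hc hA hG hd 0 (a / 2) (by positivity)
  refine ⟨max n₀ 1, fun n hn => ?_⟩
  have hn1 : 1 ≤ n := (le_max_right _ _).trans hn
  have h1 := hn₀ n ((le_max_left _ _).trans hn)
  have h3 := clu (all2_dl0 hA) hbig n hn1
  rw [← ha] at h1
  have h4 := uni_calc ha0 h1 h3
  have h5 : (Cls (dl A) n).filter (fun D => Nat.card (SelC 2 α c A D) = 2 ^ (m - 1)) =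
      (Cls (dl A) n).filter fun D => rkS 2 α c A D = 0 := by
    refine Finset.filter_congr fun D hD => ?_
    have h6 := rkS_spec (ℓ := 2) hq hm hα hc hA hn1 hD 0
    rw [Nat.add_zero] at h6
    exact h6
  rw [h5]
  refine le_trans ?_ h4
  exact mul_le_mul_of_nonneg_right (min_le_left _ _) (by positivity)

end Pool.Agent.H94.AT
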