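import Pool.Agent.H94.AT.TGN
import Pool.Agent.H94.AT.UNI
import Pool.Agent.H94.AT.CN1

set_option autoImplicit false

/-!
# [H94 AT ALL] Almost all twists over `ℤ[X]`

`Gt ℓ α c A D`: `D` is squarefree and prime to the differences and the Selmer group is minimal.
`at_all`: `κ` from `uno` (`ℓ ≠ 2`) or `un2` (`ℓ = 2`); `p₀ ≥ B + 1`, `≥ 3`, `≥ 8 + 4 e` (`e` from `tg_inj`), `≥` the bounds of `tg_inj`, `tg_gen`, `tg_dtv`.  For a prime `p ≥ p₀`, `p ≡ 1` modulo `ℓ`, `F = ZMod p`: `Nat.card F = p`, `ℓ ∣ p - 1`, `genF_A`: `GenF → GenA`.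
The `D ∈ Cls (dl Ā) n` with `card SelC = ℓ ^ (m - 1)` satisfy `Gt` (`mem_Cls`; `Ā i - Ā k` divides `dl Ā` up to sign for `i ≠ k`, so `D` is coprime to it); count (`Nat.card` of the subtype against `Finset.card`), `cn1` with `G p g = ∃ _ : Fact p.Prime, Gt ℓ α (c : ZMod p) (redA p A) g` (classical `DecidableEq`).
-/

namespace Pool.Agent.H94.AT

open Polynomial
open Pool.Agent.H94.PN

/-- the property of the reduction -/
structure Gt {F : Type} [Field F] [DecidableEq (RatFunc F)] {m : ℕ} (ℓ α : ℕ) (c : F)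
    (A : Fin m → F[X]) (D : F[X]) : Prop where
  sqf : Squarefree D
  cop : ∀ i k, i ≠ k → IsCoprime D (A i - A k)
  sel : Nat.card (SelC ℓ α c A D) = ℓ ^ (m - 1)

open Classical in
private theorem all_cnt {p : ℕ} [Fact p.Prime] {ℓ m α : ℕ} (c : ZMod p) (A : Fin m → (ZMod p)[X])
    (n : ℕ) :
    ((Pool.Agent.H94.PL.Cls (Pool.Agent.H94.PL.dl A) n).filter fun D =>
      Nat.card (SelC ℓ α c A D) = ℓ ^ (m - 1)).card ≤
      Nat.card {g : (ZMod p)[X] // (g.Monic ∧ g.natDegree = n) ∧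
        ∃ _ : Fact p.Prime, Gt ℓ α c A g} := by
  have hfin : {g : (ZMod p)[X] | (g.Monic ∧ g.natDegree = n) ∧
      ∃ _ : Fact p.Prime, Gt ℓ α c A g}.Finite :=
    (mo1_card (F := ZMod p) n).2.subset fun g hg => hg.1
  have hsub : (((Pool.Agent.H94.PL.Cls (Pool.Agent.H94.PL.dl A) n).filter fun D =>
      Nat.card (SelC ℓ α c A D) = ℓ ^ (m - 1) : Finset (ZMod p)[X]) : Set (ZMod p)[X]) ⊆
      {g : (ZMod p)[X] | (g.Monic ∧ g.natDegree = n) ∧ ∃ _ : Fact p.Prime, Gt ℓ α c A g} := by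
    intro D hD
    have h1 := Finset.mem_filter.1 (Finset.mem_coe.1 hD)
    obtain ⟨h2, h3⟩ := h1
    rw [Pool.Agent.H94.PL.mem_Cls] at h2
    refine ⟨⟨h2.1, h2.2.1⟩, inferInstance, h2.2.2.1, fun i k hik => ?_, h3⟩
    exact h2.2.2.2.of_isCoprime_of_dvd_right (Pool.Agent.H94.PL.dvd_dl hik)
  have h := Set.ncard_le_ncard hsub hfin
  rw [Set.ncard_coe_finset, ← Nat.card_coe_set_eq] at h
  exact h

open Classical in
private theorem all_core {ℓ : ℕ} [hl : Fact ℓ.Prime] {m α : ℕ} (A : Fin m → ℤ[X]) (c : ℤ) (B : ℕ)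
    {κ : ℝ} (hκ : 0 < κ) (hκ1 : κ ≤ 1) (p₀ : ℕ) (hB : B < p₀)
    (h : ∀ p : ℕ, [Fact p.Prime] → p₀ ≤ p → ℓ ∣ Nat.card (ZMod p) - 1 → ∃ n₀ : ℕ, ∀ n : ℕ, n₀ ≤ n →
      κ * (Nat.card (ZMod p) : ℝ) ^ n ≤
        (((Pool.Agent.H94.PL.Cls (Pool.Agent.H94.PL.dl (redA p A)) n).filter fun D =>
          Nat.card (SelC ℓ α (c : ZMod p) (redA p A) D) = ℓ ^ (m - 1)).card : ℝ))
    (ε : ℝ) (hε : 0 < ε) :
    ∃ N₀ n₀ M : ℕ, 0 < N₀ ∧ ∀ N n : ℕ, 0 < N → n₀ ≤ n → (N₀ ∣ N ∨ M * (n + 1) ≤ N) →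
      (1 - ε) * (N : ℝ) ^ n ≤
        (Nat.card {D : ℤ[X] // Bx N n D ∧ ∃ p, p ∣ N₀ ∧ B < p ∧ p ≡ 1 [MOD ℓ] ∧
          ∃ _ : Fact p.Prime, Gt ℓ α (c : ZMod p) (redA p A)
            (D.map (Int.castRingHom (ZMod p)))} : ℝ) := by
  obtain ⟨N₀, n₀, M, hN₀, hcn⟩ := cn1 hl.out.ne_zero hκ hκ1 p₀
    (fun p g => ∃ _ : Fact p.Prime, Gt ℓ α (c : ZMod p) (redA p A) g) (fun p hp hpp hmod => by
      have hF : Fact p.Prime := ⟨hp⟩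
      have hd : ℓ ∣ Nat.card (ZMod p) - 1 := by
        rw [Nat.card_zmod]
        exact (Nat.modEq_iff_dvd' hp.one_lt.le).1 hmod.symm
      obtain ⟨n₀, hn₀⟩ := h p hpp hd
      refine ⟨n₀, fun n hn => ?_⟩
      have h1 := hn₀ n hn
      rw [Nat.card_zmod] at h1
      refine h1.trans ?_
      exact_mod_cast all_cnt (ℓ := ℓ) (α := α) (c : ZMod p) (redA p A) n) ε hε
  refine ⟨N₀, n₀, M, hN₀, fun N n hN hn hor => ?_⟩
  refine (hcn N n hN hn hor).trans ?_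
  have hfin : {D : ℤ[X] | Bx N n D ∧ ∃ p, p ∣ N₀ ∧ B < p ∧ p ≡ 1 [MOD ℓ] ∧
      ∃ _ : Fact p.Prime, Gt ℓ α (c : ZMod p) (redA p A)
        (D.map (Int.castRingHom (ZMod p)))}.Finite := (bx1_fin N n).subset fun D hD => hD.1
  have hsub : {D : ℤ[X] | Bx N n D ∧ ∃ p, p ∣ N₀ ∧ p.Prime ∧ p₀ ≤ p ∧ p ≡ 1 [MOD ℓ] ∧
      ∃ _ : Fact p.Prime, Gt ℓ α (c : ZMod p) (redA p A) (D.map (Int.castRingHom (ZMod p)))} ⊆
      {D : ℤ[X] | Bx N n D ∧ ∃ p, p ∣ N₀ ∧ B < p ∧ p ≡ 1 [MOD ℓ] ∧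
      ∃ _ : Fact p.Prime, Gt ℓ α (c : ZMod p) (redA p A) (D.map (Int.castRingHom (ZMod p)))} := by
    rintro D ⟨h1, p, h2, -, h4, h5, h6⟩
    exact ⟨h1, p, h2, lt_of_lt_of_le hB h4, h5, h6⟩
  have h7 := Set.ncard_le_ncard hsub hfin
  rw [← Nat.card_coe_set_eq, ← Nat.card_coe_set_eq] at h7
  exact_mod_cast h7

open Classical in
theorem at_all {ℓ : ℕ} [hl : Fact ℓ.Prime] {m α : ℕ} (hm2 : 2 ≤ m) (hm : Nat.Coprime m ℓ)
    (hα : ℓ ∣ α * m + 1) (A : Fin m → ℤ[X]) (hA : ∀ i k, i ≠ k → A i ≠ A k)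
    (hG : GenF ℓ fun k => (A k).map (Int.castRingHom ℚ))
    (hd : ℓ = 2 → ∃ v, Dtv (fun k => (A k).map (Int.castRingHom ℚ)) v)
    (c : ℤ) (hc : c ≠ 0) (B : ℕ) (ε : ℝ) (hε : 0 < ε) :
    ∃ N₀ n₀ M : ℕ, 0 < N₀ ∧ ∀ N n : ℕ, 0 < N → n₀ ≤ n → (N₀ ∣ N ∨ M * (n + 1) ≤ N) →
      (1 - ε) * (N : ℝ) ^ n ≤
        (Nat.card {D : ℤ[X] // Bx N n D ∧ ∃ p, p ∣ N₀ ∧ B < p ∧ p ≡ 1 [MOD ℓ] ∧
          ∃ _ : Fact p.Prime, Gt ℓ α (c : ZMod p) (redA p A)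
            (D.map (Int.castRingHom (ZMod p)))} : ℝ) := by
  obtain ⟨p₁, e, h1⟩ := tg_inj A hA c hc
  obtain ⟨p₂, h2⟩ := tg_gen A hA hG
  rcases eq_or_ne ℓ 2 with hℓ | hℓ
  · subst hℓ
    obtain ⟨v, hv⟩ := hd rfl
    obtain ⟨p₃, h3⟩ := tg_dtv A hA hv
    have hm3 : 3 ≤ m := by
      rcases Nat.lt_or_ge m 3 with h | h
      · have : m = 2 := by omega
        subst this
        exact absurd hm (by decide)
      · exact h
    obtain ⟨κ, hκ, hκ1, hu⟩ := un2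
    refine all_core A c B hκ hκ1 (B + 1 + (8 + 4 * e) + p₁ + p₂ + p₃) (by omega) ?_ ε hε
    intro p _ hp hdv
    obtain ⟨g1, g2, g3⟩ := h1 p (by omega)
    exact hu (ZMod p) m α (c : ZMod p) (redA p A) hdv hm hm3 hα g3 g1
      (genF_A hm (h2 p (by omega))) (h3 p (by omega)) (by
        rw [Nat.card_zmod]
        omega)
  · obtain ⟨κ, hκ, hκ1, hu⟩ := uno hℓ
    refine all_core A c B hκ hκ1 (B + 1 + (8 + 4 * e) + p₁ + p₂) (by omega) ?_ ε hε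
    intro p _ hp hdv
    obtain ⟨g1, g2, g3⟩ := h1 p (by omega)
    exact hu (ZMod p) m α (c : ZMod p) (redA p A) hdv hm hm2 hα g3 g1
      (genF_A hm (h2 p (by omega))) (by
        rw [Nat.card_zmod]
        omega)

end Pool.Agent.H94.AT
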