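import Pool.Agent.H94.AA.CRT

set_option autoImplicit false

/-!
# [H94 AT BX1] Monic polynomials with coefficients in a box

The monic polynomials of degree `n` over a nontrivial ring are in bijection with `Fin n → R` (`D ↦ fun i => D.coeff i`, inverse `X ^ n + ∑ i, monomial i (x i)`; compatible with reduction, `coeff_map`).
* `bx1`: `crt` for `I = Fin n`.  * `bx1_card`, `bx1_fin`, `mo1_card`.
-/

namespace Pool.Agent.H94.AT

open Polynomial

/-- monic of degree `n`, the other coefficients are between `1` and `N` -/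
def Bx (N n : ℕ) (D : ℤ[X]) : Prop :=
  D.Monic ∧ D.natDegree = n ∧ ∀ i < n, 1 ≤ D.coeff i ∧ D.coeff i ≤ N

private theorem mon_ext {R : Type} [CommRing R] {n : ℕ} {g h : R[X]} (hg : g.Monic)
    (hgn : g.natDegree = n) (hh : h.Monic) (hhn : h.natDegree = n)
    (e : ∀ i < n, g.coeff i = h.coeff i) : g = h := by
  ext i
  rcases lt_trichotomy i n with hi | hi | hi
  · exact e i hi
  · have h1 := hg.coeff_natDegree
    have h2 := hh.coeff_natDegree
    rw [hgn] at h1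
    rw [hhn] at h2
    rw [hi, h1, h2]
  · rw [coeff_eq_zero_of_natDegree_lt (hgn.trans_lt hi),
      coeff_eq_zero_of_natDegree_lt (hhn.trans_lt hi)]

private theorem mon_ex {R : Type} [CommRing R] [Nontrivial R] {n : ℕ} (x : Fin n → R) :
    ∃ g : R[X], g.Monic ∧ g.natDegree = n ∧ ∀ i : Fin n, g.coeff i = x i := by
  set e : {p : R[X] // p.Monic ∧ p.natDegree = n} ≃ (Fin n → R) :=
    (monicEquivDegreeLT n).trans (degreeLTEquiv R n).toEquiv with he
  have h1 : ∀ q : {p : R[X] // p.Monic ∧ p.natDegree = n}, ∀ i : Fin n, e q i = q.1.coeff i := by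
    intro q i
    show q.1.eraseLead.coeff i = q.1.coeff i
    rw [eraseLead_coeff_of_ne]
    rw [q.2.2]
    exact i.2.ne
  refine ⟨(e.symm x).1, (e.symm x).2.1, (e.symm x).2.2, fun i => ?_⟩
  rw [← h1, Equiv.apply_symm_apply]

/-- polynomials and vectors -/
private theorem mon_card {R : Type} [CommRing R] [Nontrivial R] {n : ℕ} (P : R[X] → Prop) :
    Nat.card {g : R[X] // g.Monic ∧ g.natDegree = n ∧ P g} =
      Nat.card {x : Fin n → R // ∃ g : R[X], g.Monic ∧ g.natDegree = n ∧ P g ∧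
        ∀ i : Fin n, g.coeff i = x i} := by
  refine Nat.card_congr (Equiv.ofBijective (fun g => ⟨fun i => g.1.coeff i,
    ⟨g.1, g.2.1, g.2.2.1, g.2.2.2, fun i => rfl⟩⟩) ⟨?_, ?_⟩)
  · intro g h hgh
    apply Subtype.ext
    refine mon_ext g.2.1 g.2.2.1 h.2.1 h.2.2.1 fun i hi => ?_
    exact congrFun (congrArg Subtype.val hgh) ⟨i, hi⟩
  · rintro ⟨x, g, h1, h2, h3, h4⟩
    refine ⟨⟨g, h1, h2, h3⟩, ?_⟩
    apply Subtype.ext
    funext i
    exact h4 i

theorem bx1 (S : Finset ℕ) (hS : ∀ p ∈ S, p.Prime) {N : ℕ} (hN : 0 < N) (hd : ∀ p ∈ S, p ∣ N)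
    (n : ℕ) (Bad : (p : ℕ) → (ZMod p)[X] → Prop) :
    (Nat.card {D : ℤ[X] // Bx N n D ∧ ∀ p ∈ S, Bad p (D.map (Int.castRingHom (ZMod p)))} : ℝ) =
      (N : ℝ) ^ n * ∏ p ∈ S, ((Nat.card {g : (ZMod p)[X] // g.Monic ∧ g.natDegree = n ∧
        Bad p g} : ℝ) / (p : ℝ) ^ n) := by
  have h := Pool.Agent.H94.AA.crt (I := Fin n) S hS hN hd (fun p x => ∃ g : (ZMod p)[X], g.Monic ∧
    g.natDegree = n ∧ Bad p g ∧ ∀ i : Fin n, g.coeff i = x i)
  rw [Fintype.card_fin] at h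
  have e1 : ∏ p ∈ S, ((Nat.card {g : (ZMod p)[X] // g.Monic ∧ g.natDegree = n ∧
        Bad p g} : ℝ) / (p : ℝ) ^ n) = ∏ p ∈ S, ((Nat.card {x : Fin n → ZMod p //
          ∃ g : (ZMod p)[X], g.Monic ∧ g.natDegree = n ∧ Bad p g ∧
            ∀ i : Fin n, g.coeff i = x i} : ℝ) / (p : ℝ) ^ n) := by
    refine Finset.prod_congr rfl fun p hp => ?_
    have : Fact p.Prime := ⟨hS p hp⟩
    rw [mon_card (R := ZMod p) (n := n) (Bad p)]
  rw [e1, ← h]
  congr 1
  refine Nat.card_congr (Equiv.ofBijective (fun D => ⟨fun i => D.1.coeff i, ?_, ?_⟩) ⟨?_, ?_⟩)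
  · intro i
    exact D.2.1.2.2 i i.2
  · intro p hp
    have : Fact p.Prime := ⟨hS p hp⟩
    refine ⟨D.1.map (Int.castRingHom (ZMod p)), D.2.1.1.map _, ?_, D.2.2 p hp, fun i => ?_⟩
    · rw [D.2.1.1.natDegree_map, D.2.1.2.1]
    · rw [coeff_map]
      simp
  · intro g h hgh
    apply Subtype.ext
    refine mon_ext g.2.1.1 g.2.1.2.1 h.2.1.1 h.2.1.2.1 fun i hi => ?_
    exact congrFun (congrArg Subtype.val hgh) ⟨i, hi⟩
  · rintro ⟨x, h1, h2⟩
    obtain ⟨D, hD1, hD2, hD3⟩ := mon_ex x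
    refine ⟨⟨D, ⟨hD1, hD2, fun i hi => ?_⟩, fun p hp => ?_⟩, ?_⟩
    · have := hD3 ⟨i, hi⟩
      rw [show D.coeff i = x ⟨i, hi⟩ from this]
      exact h1 ⟨i, hi⟩
    · have : Fact p.Prime := ⟨hS p hp⟩
      obtain ⟨g, hg1, hg2, hg3, hg4⟩ := h2 p hp
      have e2 : D.map (Int.castRingHom (ZMod p)) = g := by
        refine mon_ext (hD1.map _) (by rw [hD1.natDegree_map, hD2]) hg1 hg2 fun i hi => ?_
        rw [coeff_map, show D.coeff i = x ⟨i, hi⟩ from hD3 ⟨i, hi⟩,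
          show g.coeff i = (x ⟨i, hi⟩ : ZMod p) from hg4 ⟨i, hi⟩]
        simp
      rw [e2]
      exact hg3
    · apply Subtype.ext
      funext i
      exact hD3 i

private theorem bx_equiv (N n : ℕ) :
    Nat.card {D : ℤ[X] // Bx N n D} = Nat.card (Fin n → Finset.Icc (1 : ℤ) N) := by
  refine Nat.card_congr (Equiv.ofBijective (fun D => fun i => ⟨D.1.coeff i, ?_⟩) ⟨?_, ?_⟩)
  · rw [Finset.mem_Icc]
    exact D.2.2.2 i i.2
  · intro g h hgh
    apply Subtype.ext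
    refine mon_ext g.2.1 g.2.2.1 h.2.1 h.2.2.1 fun i hi => ?_
    exact congrArg Subtype.val (congrFun hgh ⟨i, hi⟩)
  · intro x
    obtain ⟨D, hD1, hD2, hD3⟩ := mon_ex fun i => (x i).1
    refine ⟨⟨D, hD1, hD2, fun i hi => ?_⟩, ?_⟩
    · rw [show D.coeff i = (x ⟨i, hi⟩).1 from hD3 ⟨i, hi⟩]
      exact Finset.mem_Icc.1 (x ⟨i, hi⟩).2
    · funext i
      apply Subtype.ext
      exact hD3 i

theorem bx1_card (N n : ℕ) : Nat.card {D : ℤ[X] // Bx N n D} = N ^ n := by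
  rw [bx_equiv, Nat.card_fun, Nat.card_eq_fintype_card, Nat.card_eq_fintype_card,
    Fintype.card_coe, Int.card_Icc, Fintype.card_fin]
  simp

theorem bx1_fin (N n : ℕ) : {D : ℤ[X] | Bx N n D}.Finite := by
  have h : Function.Injective (fun D : {D : ℤ[X] // Bx N n D} => fun i : Fin n =>
      (⟨D.1.coeff i, Finset.mem_Icc.2 (D.2.2.2 i i.2)⟩ : Finset.Icc (1 : ℤ) N)) := by
    intro g h hgh
    apply Subtype.ext
    refine mon_ext g.2.1 g.2.2.1 h.2.1 h.2.2.1 fun i hi => ?_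
    exact congrArg Subtype.val (congrFun hgh ⟨i, hi⟩)
  exact Set.finite_coe_iff.1 (Finite.of_injective _ h)

theorem mo1_card {F : Type} [Field F] [Finite F] (n : ℕ) :
    Nat.card {g : F[X] // g.Monic ∧ g.natDegree = n} = Nat.card F ^ n ∧
      {g : F[X] | g.Monic ∧ g.natDegree = n}.Finite := by
  let e : {p : F[X] // p.Monic ∧ p.natDegree = n} ≃ (Fin n → F) :=
    (monicEquivDegreeLT n).trans (degreeLTEquiv F n).toEquiv
  refine ⟨?_, ?_⟩
  · rw [Nat.card_congr e, Nat.card_fun, Nat.card_eq_fintype_card (α := Fin n), Fintype.card_fin]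
  · exact Set.finite_coe_iff.1 (Finite.of_injective e e.injective)

end Pool.Agent.H94.AT
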