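import Pool.Agent.H94.PL.CardCls

set_option autoImplicit false

/-!
# [H94 AT CLU] Many squarefree polynomials prime to `Δ`, uniformly in `q`

`q = card F`, `Δ ≠ 0`, `8 + 4 deg Δ ≤ q`.  Of the `q ^ n` monic polynomials of degree `n` (`card_Mo`)
* at most `∑_{1 ≤ k ≤ n / 2} q ^ k q ^ (n - 2 k) ≤ q ^ n / (q - 1) ≤ q ^ n / 7` are divisible by `r ^ 2` for a monic irreducible `r` of degree `k` (at most `q ^ k` of them: `card_Pr_le`; the multiples of `r ^ 2` in `Mo F n` are `r ^ 2 * Mo F (n - 2 k)`),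
* at most `∑_{r ∣ Δ} q ^ (n - deg r) ≤ (deg Δ) q ^ (n - 1) ≤ q ^ n / 4` are divisible by a prime factor `r` of `Δ` (for `n ≥ 1`; the number of the prime factors is at most `deg Δ`; a prime of degree `> n` divides no element of `Mo F n`).
The others are in `Cls Δ n` (`mem_Cls`; not coprime to `Δ` means that some prime factor of `Δ` divides `D`), so `card Cls ≥ q ^ n (1 - 1 / 7 - 1 / 4) ≥ q ^ n / 2`.
(`H94/PL/CardCls.lean` has similar counts for fixed `q`.)
-/

namespace Pool.Agent.H94.AT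

open Polynomial
open Pool.Agent.H94.PC
open Pool.Agent.H94.PL

private theorem clu_geom (q : ℝ) (hq : 8 ≤ q) (M : ℕ) :
    ∑ e ∈ Finset.Icc 1 M, (1 / q) ^ e ≤ 1 / 7 := by
  have hq0 : 0 < q := by linarith
  have hq1 : 0 < q - 1 := by linarith
  have key : ∀ M : ℕ, ∑ e ∈ Finset.Icc 1 M, (1 / q) ^ e =
      1 / (q - 1) - (1 / q) ^ M / (q - 1) := by
    intro M
    induction M with
    | zero => simp
    | succ M ih =>
      rw [Finset.sum_Icc_succ_top (by omega), ih, pow_succ]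
      field_simp
      ring
  rw [key M]
  have h1 : 0 ≤ (1 / q) ^ M / (q - 1) := by positivity
  have h2 : 1 / (q - 1) ≤ 1 / 7 := one_div_le_one_div_of_le (by norm_num) (by linarith)
  linarith

private theorem clu_pf {F : Type} [Field F] [Finite F] {G : F[X]} (hG : G ≠ 0) :
    (pf G).card ≤ G.natDegree := by
  have h1 : ∏ P ∈ pf G, P ∣ G := by
    refine Finset.prod_dvd_of_coprime ?_ ?_
    · intro P hP Q hQ hPQ
      have h4 := mem_pf' (Finset.mem_coe.1 hP)
      have h5 := mem_pf' (Finset.mem_coe.1 hQ)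
      exact isCoprime_irr h4.1 h4.2.1 h5.1 h5.2.1 hPQ
    · intro P hP
      exact (mem_pf' hP).2.2
  have h2 := natDegree_le_of_dvd h1 hG
  have h3 : (∏ P ∈ pf G, P).natDegree = ∑ P ∈ pf G, P.natDegree :=
    natDegree_prod_of_monic _ _ fun P hP => (mem_pf' hP).1
  rw [h3] at h2
  refine le_trans ?_ h2
  rw [Finset.card_eq_sum_ones]
  exact Finset.sum_le_sum fun P hP => (mem_pf' hP).2.1.natDegree_pos

open Classical in
private theorem clu_bad1 {F : Type} [Field F] [Finite F] (hq : 8 ≤ Nat.card F) (n : ℕ) :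
    (((Mo F n).filter fun D => ¬ Squarefree D).card : ℝ) ≤ (Nat.card F : ℝ) ^ n * (1 / 7) := by
  have hsub : ((Mo F n).filter fun D => ¬ Squarefree D) ⊆
      (cardl_R (1 : F[X]) n).filter (fun D => ¬ Squarefree D) := by
    intro D hD
    rw [Finset.mem_filter, mem_Mo] at hD
    rw [Finset.mem_filter, cardl_mem]
    exact ⟨⟨hD.1, isCoprime_one_right⟩, hD.2⟩
  have h1 := Finset.card_le_card (hsub.trans (cardl_bad (1 : F[X]) n))
  have h4 : ((Mo F n).filter fun D => ¬ Squarefree D).card ≤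
      ∑ e ∈ Finset.Icc 1 (n / 2), Nat.card F ^ e * Nat.card F ^ (n - 2 * e) := by
    refine h1.trans (Finset.card_biUnion_le.trans (Finset.sum_le_sum fun d _ => ?_))
    refine Finset.card_biUnion_le.trans ?_
    refine (Finset.sum_le_sum fun P _ => (Finset.card_image_le.trans
      (cardl_R_le (1 : F[X]) (n - 2 * d)))).trans ?_
    rw [Finset.sum_const, smul_eq_mul]
    exact Nat.mul_le_mul_right _ (card_Pr_le (F := F) d)
  have hqr : (8 : ℝ) ≤ (Nat.card F : ℝ) := by exact_mod_cast hq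
  have hq0 : (0 : ℝ) < (Nat.card F : ℝ) := by linarith
  have h5 : (((Mo F n).filter fun D => ¬ Squarefree D).card : ℝ) ≤
      ∑ e ∈ Finset.Icc 1 (n / 2), (Nat.card F : ℝ) ^ e * (Nat.card F : ℝ) ^ (n - 2 * e) := by
    exact_mod_cast h4
  refine h5.trans ?_
  have h6 : ∀ e ∈ Finset.Icc 1 (n / 2), (Nat.card F : ℝ) ^ e * (Nat.card F : ℝ) ^ (n - 2 * e) =
      (Nat.card F : ℝ) ^ n * (1 / (Nat.card F : ℝ)) ^ e := by
    intro e he
    rw [Finset.mem_Icc] at he
    have h7 : (Nat.card F : ℝ) ^ n = (Nat.card F : ℝ) ^ (n - 2 * e) *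
        ((Nat.card F : ℝ) ^ e * (Nat.card F : ℝ) ^ e) := by
      rw [← pow_add, ← pow_add]
      congr 1
      omega
    rw [h7, one_div, inv_pow]
    field_simp
  rw [Finset.sum_congr rfl h6, ← Finset.mul_sum]
  exact mul_le_mul_of_nonneg_left (clu_geom _ hqr _) (by positivity)

open Classical in
private theorem clu_bad2 {F : Type} [Field F] [Finite F] {Δ : F[X]} (hΔ : Δ ≠ 0) (n : ℕ)
    (hn : 1 ≤ n) :
    ((Mo F n).filter fun D => ¬ IsCoprime D Δ).card ≤ Δ.natDegree * Nat.card F ^ (n - 1) := by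
  have hsub : ((Mo F n).filter fun D => ¬ IsCoprime D Δ) ⊆
      (pf Δ).biUnion fun r => (Mo F (n - r.natDegree)).image fun E => r * E := by
    intro D hD
    rw [Finset.mem_filter, mem_Mo] at hD
    obtain ⟨⟨h1, h2⟩, h3⟩ := hD
    have h4 : ∃ z : F[X], Irreducible z ∧ z ∣ D ∧ z ∣ Δ := by
      by_contra hcon
      push Not at hcon
      exact h3 (isCoprime_of_irreducible_dvd (fun h => hΔ h.2) hcon)
    obtain ⟨z, hz, hzD, hzΔ⟩ := h4
    obtain ⟨r, hr⟩ : ∃ r : F[X], r = normalize z := ⟨_, rfl⟩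
    have hrm : r.Monic := by
      rw [hr]
      exact monic_normalize hz.ne_zero
    have hass : Associated z r := by
      rw [hr]
      exact (normalize_associated z).symm
    have hri : Irreducible r := hass.irreducible hz
    have hrD : r ∣ D := hass.symm.dvd.trans hzD
    have hrΔ : r ∣ Δ := hass.symm.dvd.trans hzΔ
    obtain ⟨E, hE⟩ := hrD
    have hEm : E.Monic := by
      rw [hE] at h1
      exact hrm.of_mul_monic_left h1
    have hdeg : r.natDegree + E.natDegree = n := by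
      rw [← h2, hE, hrm.natDegree_mul hEm]
    rw [Finset.mem_biUnion]
    refine ⟨r, (mem_pf hΔ).2 ⟨hrm, hri, hrΔ⟩, ?_⟩
    rw [Finset.mem_image]
    refine ⟨E, ?_, hE.symm⟩
    rw [mem_Mo]
    exact ⟨hEm, by omega⟩
  refine (Finset.card_le_card hsub).trans (Finset.card_biUnion_le.trans ?_)
  have h5 : ∀ r ∈ pf Δ, ((Mo F (n - r.natDegree)).image fun E => r * E).card ≤
      Nat.card F ^ (n - 1) := by
    intro r hr
    refine Finset.card_image_le.trans ?_
    rw [card_Mo]
    have h6 : 1 ≤ r.natDegree := (mem_pf' hr).2.1.natDegree_pos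
    exact Nat.pow_le_pow_right Nat.card_pos (by omega)
  refine (Finset.sum_le_sum h5).trans ?_
  rw [Finset.sum_const, smul_eq_mul]
  exact Nat.mul_le_mul_right _ (clu_pf hΔ)

theorem clu {F : Type} [Field F] [Finite F] {Δ : F[X]} (hΔ : Δ ≠ 0)
    (hq : 8 + 4 * Δ.natDegree ≤ Nat.card F) (n : ℕ) (hn : 1 ≤ n) :
    (Nat.card F : ℝ) ^ n / 2 ≤ ((Cls Δ n).card : ℝ) := by
  classical
  have hsub : Mo F n ⊆ Cls Δ n ∪ (((Mo F n).filter fun D => ¬ Squarefree D) ∪
      ((Mo F n).filter fun D => ¬ IsCoprime D Δ)) := by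
    intro D hD
    rw [Finset.mem_union, Finset.mem_union, Finset.mem_filter, Finset.mem_filter, mem_Cls]
    by_cases h1 : Squarefree D
    · by_cases h2 : IsCoprime D Δ
      · left
        rw [mem_Mo] at hD
        exact ⟨hD.1, hD.2, h1, h2⟩
      · right
        right
        exact ⟨hD, h2⟩
    · right
      left
      exact ⟨hD, h1⟩
  have h1 : (Mo F n).card ≤ (Cls Δ n).card + (((Mo F n).filter fun D => ¬ Squarefree D).card +
      ((Mo F n).filter fun D => ¬ IsCoprime D Δ).card) :=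
    (Finset.card_le_card hsub).trans ((Finset.card_union_le _ _).trans
      (Nat.add_le_add_left (Finset.card_union_le _ _) _))
  rw [card_Mo] at h1
  have h2 := clu_bad1 (F := F) (by omega) n
  have h3 := clu_bad2 hΔ n hn
  have h4 : (Nat.card F : ℝ) ^ n ≤ ((Cls Δ n).card : ℝ) +
      ((((Mo F n).filter fun D => ¬ Squarefree D).card : ℝ) +
      (((Mo F n).filter fun D => ¬ IsCoprime D Δ).card : ℝ)) := by
    exact_mod_cast h1
  have h5 : (((Mo F n).filter fun D => ¬ IsCoprime D Δ).card : ℝ) ≤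
      (Δ.natDegree : ℝ) * (Nat.card F : ℝ) ^ (n - 1) := by
    exact_mod_cast h3
  have h6 : (8 : ℝ) + 4 * (Δ.natDegree : ℝ) ≤ (Nat.card F : ℝ) := by exact_mod_cast hq
  have h7 : (Nat.card F : ℝ) ^ n = (Nat.card F : ℝ) ^ (n - 1) * (Nat.card F : ℝ) := by
    rw [← pow_succ]
    congr 1
    omega
  have h8 : (0 : ℝ) ≤ (Nat.card F : ℝ) ^ (n - 1) := by positivity
  have h9 : (Δ.natDegree : ℝ) * (Nat.card F : ℝ) ^ (n - 1) ≤ (Nat.card F : ℝ) ^ n / 4 := by
    rw [h7]
    nlinarith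
  have h10 : (0 : ℝ) ≤ (Nat.card F : ℝ) ^ n := by positivity
  linarith

end Pool.Agent.H94.AT
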