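import Mathlib

set_option autoImplicit false

/-!
# [H94 AT TG] Multiplicities modulo large primes

`v ∈ ℚ[X]` irreducible, `f j ∈ ℤ[X]` finitely many nonzero polynomials, `e j = multiplicity v (f j)` over `ℚ`.  For every large prime `p` there is an irreducible `w ∈ 𝔽_p[X]` which divides `f j` modulo `p` exactly `e j` times.
Proof.  Over `ℚ`: `f j = v ^ (e j) * g j`, `v ∤ g j`, so `IsCoprime v (g j)` (`Irreducible.coprime_iff_not_dvd`); `v` is separable (`Irreducible.separable`, characteristic 0), i.e. `IsCoprime v (derivative v)`.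
Clear denominators (`IsLocalization.integerNormalization`, or: for every `h ∈ ℚ[X]` there are `a : ℤ`, `a ≠ 0`, `H : ℤ[X]` with `H.map = C a * h`): there are `V, G j, U j, S j, U', S' ∈ ℤ[X]` and nonzero integers `a`, `M j`, `M' j`, `M''` with
`V.map = C a * v`, `C (M j) * f j = V ^ (e j) * G j`, `U j * V + S j * G j = C (M' j)`, `U' * V + S' * derivative V = C M''` in `ℤ[X]` (the map to `ℚ[X]` is injective; multiply the identities over `ℚ` by suitable integers).
Let `p` be larger than the absolute values of all these integers and of the leading coefficient of `V`.  Over `𝔽_p` these integers are not zero, `V̄` has the degree of `V`, which is the degree of `v`, `≥ 1`; let `w` be an irreducible factor of `V̄`.  `V̄` is separable, so squarefree: `w ^ 2 ∤ V̄`, `multiplicity w V̄ = 1`; `w ∤ Ḡ j`; so `multiplicity w (C (M j) f̄ j) = e j` (`multiplicity_mul`, `multiplicity_pow` for the prime `w`, `FiniteMultiplicity`; or directly: `w ^ e ∣ f̄ j`, `w ^ (e + 1) ∤ f̄ j`, `multiplicity_eq_of_dvd_of_not_dvd`),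 and `C (M j)` is a unit.
-/

namespace Pool.Agent.H94.AT

open Polynomial

private theorem tg_clr (h : ℚ[X]) : ∃ (a : ℤ) (H : ℤ[X]), a ≠ 0 ∧
    H.map (Int.castRingHom ℚ) = C (a : ℚ) * h := by
  obtain ⟨b, hb0, hb⟩ := IsLocalization.integerNormalization_spec (nonZeroDivisors ℤ) h
  refine ⟨b, IsLocalization.integerNormalization (nonZeroDivisors ℤ) h,
    nonZeroDivisors.ne_zero hb0, ?_⟩
  have h1 : (algebraMap ℤ ℚ) = Int.castRingHom ℚ := rfl
  rw [← h1, hb, ← Polynomial.smul_eq_C_mul, Int.cast_smul_eq_zsmul]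

private theorem tg_inj' : Function.Injective (Polynomial.map (Int.castRingHom ℚ)) :=
  Polynomial.map_injective _ (RingHom.injective_int _)

private theorem tg_mapC (a : ℤ) : (C a : ℤ[X]).map (Int.castRingHom ℚ) = C (a : ℚ) := by
  rw [map_C]
  rfl

theorem tg {ι : Type} [Finite ι] (v : ℚ[X]) (hv : Irreducible v) (f : ι → ℤ[X])
    (hf : ∀ j, f j ≠ 0) : ∃ p₀ : ℕ, ∀ p : ℕ, [Fact p.Prime] → p₀ ≤ p →
      ∃ w : (ZMod p)[X], Irreducible w ∧ ∀ j, multiplicity w ((f j).map (Int.castRingHom (ZMod p))) =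
        multiplicity v ((f j).map (Int.castRingHom ℚ)) := by
  classical
  have := Fintype.ofFinite ι
  -- data over the rationals
  have hfQ : ∀ j, (f j).map (Int.castRingHom ℚ) ≠ 0 := by
    intro j h0
    refine hf j (tg_inj' ?_)
    rw [h0, Polynomial.map_zero]
  have h1 : ∀ j, ∃ g : ℚ[X], (f j).map (Int.castRingHom ℚ) =
      v ^ multiplicity v ((f j).map (Int.castRingHom ℚ)) * g ∧ ¬ v ∣ g := fun j =>
    (FiniteMultiplicity.of_not_isUnit hv.not_isUnit (hfQ j)).exists_eq_pow_mul_and_not_dvd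
  choose g hg hvg using h1
  have h2 : ∀ j, ∃ u s : ℚ[X], u * v + s * g j = 1 := fun j =>
    hv.coprime_iff_not_dvd.2 (hvg j)
  choose u s hus using h2
  obtain ⟨u', s', hus'⟩ : ∃ u' s' : ℚ[X], u' * v + s' * derivative v = 1 := hv.separable
  obtain ⟨a, V, ha, hV⟩ := tg_clr v
  have h3 := fun j => tg_clr (g j)
  choose b G hb hG using h3
  have h4 := fun j => tg_clr (u j)
  choose c U hc hU using h4
  have h5 := fun j => tg_clr (s j)
  choose d S hd hS using h5
  obtain ⟨c', U', hc', hU'⟩ := tg_clr u'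
  obtain ⟨d', S', hd', hS'⟩ := tg_clr s'
  -- integral identities
  have i1 : ∀ j, C (a ^ multiplicity v ((f j).map (Int.castRingHom ℚ)) * b j) * f j =
      V ^ multiplicity v ((f j).map (Int.castRingHom ℚ)) * G j := by
    intro j
    have hgj := hg j
    generalize multiplicity v ((f j).map (Int.castRingHom ℚ)) = e at hgj ⊢
    apply tg_inj'
    rw [Polynomial.map_mul, Polynomial.map_mul, Polynomial.map_pow, hV, hG, tg_mapC, hgj]
    rw [mul_pow]
    push_cast
    rw [C_mul, C_pow]
    ring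
  have i2 : ∀ j, C (d j * b j) * U j * V + C (a * c j) * S j * G j =
      C (a * c j * d j * b j) := by
    intro j
    apply tg_inj'
    rw [Polynomial.map_add, Polynomial.map_mul, Polynomial.map_mul, Polynomial.map_mul,
      Polynomial.map_mul, hV, hG, hU, hS, tg_mapC, tg_mapC, tg_mapC]
    push_cast
    simp only [C_mul]
    linear_combination (C (a : ℚ) * C (c j : ℚ) * C (d j : ℚ) * C (b j : ℚ)) * hus j
  have i3 : C d' * U' * V + C c' * S' * derivative V = C (a * c' * d') := by
    apply tg_inj'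
    rw [Polynomial.map_add, Polynomial.map_mul, Polynomial.map_mul, Polynomial.map_mul,
      Polynomial.map_mul, ← derivative_map, hV, hU', hS', tg_mapC, tg_mapC, tg_mapC,
      derivative_C_mul]
    push_cast
    simp only [C_mul]
    linear_combination (C (a : ℚ) * C (c' : ℚ) * C (d' : ℚ)) * hus'
  have hV0 : V ≠ 0 := by
    rintro rfl
    rw [Polynomial.map_zero] at hV
    have ha' : (a : ℚ) ≠ 0 := by exact_mod_cast ha
    rcases mul_eq_zero.1 hV.symm with h | h
    · exact ha' (C_eq_zero.1 h)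
    · exact hv.ne_zero h
  have hVd : 0 < V.natDegree := by
    have ha' : (a : ℚ) ≠ 0 := by exact_mod_cast ha
    have e1 : (V.map (Int.castRingHom ℚ)).natDegree = V.natDegree :=
      natDegree_map_eq_of_injective (RingHom.injective_int _) V
    rw [hV, natDegree_C_mul ha'] at e1
    rw [← e1]
    exact hv.natDegree_pos
  set N : ℤ := a * V.leadingCoeff * c' * d' * ∏ j, (b j * c j * d j) with hN
  have hN0 : N ≠ 0 := by
    rw [hN]
    refine mul_ne_zero (mul_ne_zero (mul_ne_zero (mul_ne_zero ha ?_) hc') hd') ?_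
    · exact leadingCoeff_ne_zero.2 hV0
    · exact Finset.prod_ne_zero_iff.2 fun j _ => mul_ne_zero (mul_ne_zero (hb j) (hc j)) (hd j)
  refine ⟨N.natAbs + 1, fun p _ hp => ?_⟩
  have hNp : (N : ZMod p) ≠ 0 := by
    intro h0
    rw [ZMod.intCast_zmod_eq_zero_iff_dvd] at h0
    have h6 := Int.natAbs_dvd_natAbs.2 h0
    rw [Int.natAbs_natCast] at h6
    have h7 := Nat.le_of_dvd (Int.natAbs_pos.2 hN0) h6
    omega
  rw [hN] at hNp
  push_cast at hNp
  have hrest := mul_ne_zero_iff.1 hNp
  have hrest2 := mul_ne_zero_iff.1 hrest.1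
  have hrest3 := mul_ne_zero_iff.1 hrest2.1
  have hrest4 := mul_ne_zero_iff.1 hrest3.1
  have hap : (a : ZMod p) ≠ 0 := hrest4.1
  have hlp : (V.leadingCoeff : ZMod p) ≠ 0 := hrest4.2
  have hcp' : (c' : ZMod p) ≠ 0 := hrest3.2
  have hdp' : (d' : ZMod p) ≠ 0 := hrest2.2
  have hjp : ∀ j, (b j : ZMod p) ≠ 0 ∧ (c j : ZMod p) ≠ 0 ∧ (d j : ZMod p) ≠ 0 := by
    intro j
    have h6 := Finset.prod_ne_zero_iff.1 hrest.2 j (Finset.mem_univ j)
    have h7 := mul_ne_zero_iff.1 h6
    have h8 := mul_ne_zero_iff.1 h7.1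
    exact ⟨h8.1, h8.2, h7.2⟩
  set φ := Int.castRingHom (ZMod p) with hφ
  have hφC : ∀ t : ℤ, (C t : ℤ[X]).map φ = C (t : ZMod p) := by
    intro t
    rw [map_C]
    rfl
  set W : (ZMod p)[X] := V.map φ with hW
  have hWd : 0 < W.natDegree := by
    rw [hW, natDegree_map_of_leadingCoeff_ne_zero φ (by exact hlp)]
    exact hVd
  have hW0 : W ≠ 0 := by
    intro h0
    rw [h0, natDegree_zero] at hWd
    exact lt_irrefl _ hWd
  have hWu : ¬ IsUnit W := fun h => by
    have := natDegree_eq_zero_of_isUnit h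
    omega
  obtain ⟨w, hw, hwW⟩ := WfDvdMonoid.exists_irreducible_factor hWu hW0
  have hwp : Prime w := hw.prime
  -- W is separable
  have hsep : W.Separable := by
    have h6 := congrArg (Polynomial.map φ) i3
    rw [Polynomial.map_add, Polynomial.map_mul, Polynomial.map_mul, Polynomial.map_mul,
      Polynomial.map_mul, ← derivative_map, hφC, hφC, hφC] at h6
    have h7 : (((a * c' * d' : ℤ)) : ZMod p) ≠ 0 := by
      push_cast
      exact mul_ne_zero (mul_ne_zero hap hcp') hdp'
    have h8 : IsUnit (C (((a * c' * d' : ℤ)) : ZMod p)) :=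
      isUnit_C.2 (isUnit_iff_ne_zero.2 h7)
    obtain ⟨r, hr⟩ := h8.exists_right_inv
    refine ⟨C (d' : ZMod p) * U'.map φ * r, C (c' : ZMod p) * S'.map φ * r, ?_⟩
    rw [← hr, ← h6]
    ring
  obtain ⟨q, hq⟩ := hwW
  have hwq : ¬ w ∣ q := by
    rintro ⟨t, rfl⟩
    have h6 := hsep.squarefree w ⟨t, by rw [hq]; ring⟩
    exact hw.not_isUnit h6
  refine ⟨w, hw, fun j => ?_⟩
  set e := multiplicity v ((f j).map (Int.castRingHom ℚ)) with he
  have hwG : ¬ w ∣ (G j).map φ := by
    intro h6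
    have h7 := congrArg (Polynomial.map φ) (i2 j)
    rw [Polynomial.map_add, Polynomial.map_mul, Polynomial.map_mul, Polynomial.map_mul,
      Polynomial.map_mul, hφC, hφC, hφC] at h7
    have h8 : (((a * c j * d j * b j : ℤ)) : ZMod p) ≠ 0 := by
      push_cast
      exact mul_ne_zero (mul_ne_zero (mul_ne_zero hap (hjp j).2.1) (hjp j).2.2) (hjp j).1
    have h9 : IsUnit (C (((a * c j * d j * b j : ℤ)) : ZMod p)) :=
      isUnit_C.2 (isUnit_iff_ne_zero.2 h8)
    refine hw.not_isUnit (isUnit_of_dvd_unit ?_ h9)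
    rw [← h7]
    exact dvd_add (Dvd.dvd.mul_left ⟨q, hq⟩ _) (Dvd.dvd.mul_left h6 _)
  have hfj : C (((a ^ e * b j : ℤ)) : ZMod p) * (f j).map φ = W ^ e * (G j).map φ := by
    have h7 := congrArg (Polynomial.map φ) (i1 j)
    rw [Polynomial.map_mul, Polynomial.map_mul, Polynomial.map_pow, hφC] at h7
    exact h7
  have hunit : IsUnit (C (((a ^ e * b j : ℤ)) : ZMod p)) := by
    refine isUnit_C.2 (isUnit_iff_ne_zero.2 ?_)
    push_cast
    exact mul_ne_zero (pow_ne_zero _ hap) (hjp j).1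
  refine multiplicity_eq_of_dvd_of_not_dvd ?_ ?_
  · rw [← hunit.dvd_mul_left (a := w ^ e), hfj, hq, mul_pow, mul_assoc]
    exact dvd_mul_right _ _
  · rw [← hunit.dvd_mul_left (a := w ^ (e + 1)), hfj, hq, mul_pow, mul_assoc, pow_succ]
    intro h6
    have h7 : w ∣ q ^ e * (G j).map φ :=
      (mul_dvd_mul_iff_left (pow_ne_zero e hw.ne_zero)).1 h6
    rcases hwp.dvd_or_dvd h7 with h8 | h8
    · exact hwq (hwp.dvd_of_dvd_pow h8)
    · exact hwG h8

end Pool.Agent.H94.AT
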