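import Pool.Agent.H94.AT.TG
import Pool.Agent.H94.PN.GENF
import Pool.Agent.H94.PN.ALL2

set_option autoImplicit false

/-!
# [H94 AT TGN] The conditions on `A` modulo large primes

`Ā k` is the reduction of `A k`.
* `tg_inj`: for `i ≠ k` and `p` larger than the absolute value of some nonzero coefficient of `A i - A k` the reductions are different; the degree of `dl Ā` (a product of the `Ā i - Ā k`, `i < k`; `prs`) is at most `∑ deg (A i - A k)` (`natDegree_prod_le`, `natDegree_map_le`; in particular at most a bound `e` which does not depend on `p`); `c ≠ 0` modulo `p` for `p > |c|`.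
* `tg_gen`: the set of the operators `lapf ℓ A v`, `v ∈ ℚ[X]` irreducible, is finite (`Module.End (ZMod ℓ) (Fin m → ZMod ℓ)` is finite); choose one `v` for each of them, and apply `tg` to `v` and the `f (i, k) = A k - A i`, `i ≠ k` (index type the subtype of the pairs with `i ≠ k`): for `p ≥ p₀` there is `w` irreducible over `𝔽_p` with `lapf ℓ Ā w = lapf ℓ A v` (the term `i = k` of `lapf` is `0`).
  So the generating set over `ℚ` is contained in the generating set over `𝔽_p`, and `GenF` follows (`Algebra.adjoin_mono`).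
* `tg_dtv`: if `v` is detecting over `ℚ` then the `w` of `tg` is detecting over `𝔽_p` (`Dtv`; `v ∣ f ↔ multiplicity ≠ 0` for `f ≠ 0`: `multiplicity_eq_zero`).
-/

namespace Pool.Agent.H94.AT

open Polynomial
open Pool.Agent.H94.PL (dl)
open Pool.Agent.H94.PN

/-- the reduction of the tuple -/
noncomputable def redA {m : ℕ} (p : ℕ) (A : Fin m → ℤ[X]) : Fin m → (ZMod p)[X] :=
  fun k => (A k).map (Int.castRingHom (ZMod p))

private theorem tgn_map {m : ℕ} (p : ℕ) (A : Fin m → ℤ[X]) (i k : Fin m) :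
    redA p A i - redA p A k = (A i - A k).map (Int.castRingHom (ZMod p)) := by
  unfold redA
  rw [Polynomial.map_sub]

theorem tg_inj {m : ℕ} (A : Fin m → ℤ[X]) (hA : ∀ i k, i ≠ k → A i ≠ A k) (c : ℤ) (hc : c ≠ 0) :
    ∃ p₀ e : ℕ, ∀ p : ℕ, [Fact p.Prime] → p₀ ≤ p → (∀ i k, i ≠ k → redA p A i ≠ redA p A k) ∧
      (dl (redA p A)).natDegree ≤ e ∧ (c : ZMod p) ≠ 0 := by
  classical
  obtain ⟨N, hN⟩ : ∃ N : ℤ, N = c * ∏ x ∈ (Finset.univ : Finset (Fin m × Fin m)).filter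
    (fun x => x.1 ≠ x.2), (A x.1 - A x.2).leadingCoeff := ⟨_, rfl⟩
  have hN0 : N ≠ 0 := by
    rw [hN]
    refine mul_ne_zero hc (Finset.prod_ne_zero_iff.2 fun x hx => ?_)
    rw [Finset.mem_filter] at hx
    exact leadingCoeff_ne_zero.2 (sub_ne_zero.2 (hA _ _ hx.2))
  refine ⟨N.natAbs + 1, ∑ x ∈ Pool.Agent.H94.PL.prs m, (A x.1 - A x.2).natDegree,
    fun p _ hp => ?_⟩
  have hNp : (N : ZMod p) ≠ 0 := by
    intro h0
    rw [ZMod.intCast_zmod_eq_zero_iff_dvd] at h0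
    have h6 := Int.natAbs_dvd_natAbs.2 h0
    rw [Int.natAbs_natCast] at h6
    have h7 := Nat.le_of_dvd (Int.natAbs_pos.2 hN0) h6
    omega
  rw [hN] at hNp
  push_cast at hNp
  have h1 := mul_ne_zero_iff.1 hNp
  refine ⟨?_, ?_, h1.1⟩
  · intro i k hik h2
    have h3 := Finset.prod_ne_zero_iff.1 h1.2 (i, k)
      (Finset.mem_filter.2 ⟨Finset.mem_univ _, hik⟩)
    apply h3
    have h4 := tgn_map p A i k
    rw [h2, sub_self] at h4
    have h5 := congrArg (fun g : (ZMod p)[X] => g.coeff (A i - A k).natDegree) h4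
    simp only [coeff_zero, coeff_map, coeff_natDegree] at h5
    exact h5.symm
  · unfold dl
    refine (natDegree_prod_le _ _).trans (Finset.sum_le_sum fun x _ => ?_)
    show (redA p A x.1 - redA p A x.2).natDegree ≤ _
    rw [tgn_map]
    exact natDegree_map_le

private theorem tgn_ne {m : ℕ} (A : Fin m → ℤ[X]) (hA : ∀ i k, i ≠ k → A i ≠ A k)
    (x : {x : Fin m × Fin m // x.1 ≠ x.2}) : A x.1.1 - A x.1.2 ≠ 0 :=
  sub_ne_zero.2 (hA _ _ x.2)

private theorem tgn_tg {m : ℕ} (A : Fin m → ℤ[X]) (hA : ∀ i k, i ≠ k → A i ≠ A k) (v : ℚ[X])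
    (hv : Irreducible v) : ∃ p₀ : ℕ, ∀ p : ℕ, [Fact p.Prime] → p₀ ≤ p →
      ∃ w : (ZMod p)[X], Irreducible w ∧ ∀ i k, i ≠ k →
        multiplicity w (redA p A i - redA p A k) =
        multiplicity v ((A i).map (Int.castRingHom ℚ) - (A k).map (Int.castRingHom ℚ)) := by
  obtain ⟨p₀, hp₀⟩ := tg (ι := {x : Fin m × Fin m // x.1 ≠ x.2}) v hv
    (fun x => A x.1.1 - A x.1.2) (tgn_ne A hA)
  refine ⟨p₀, fun p _ hp => ?_⟩
  obtain ⟨w, hw, h1⟩ := hp₀ p hp
  refine ⟨w, hw, fun i k hik => ?_⟩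
  have h2 := h1 ⟨(i, k), hik⟩
  rw [tgn_map, ← Polynomial.map_sub]
  exact h2

theorem tg_gen {ℓ : ℕ} [Fact ℓ.Prime] {m : ℕ} (A : Fin m → ℤ[X]) (hA : ∀ i k, i ≠ k → A i ≠ A k)
    (hG : GenF ℓ fun k => (A k).map (Int.castRingHom ℚ)) :
    ∃ p₀ : ℕ, ∀ p : ℕ, [Fact p.Prime] → p₀ ≤ p → GenF ℓ (redA p A) := by
  classical
  have hfin : Finite (Module.End (ZMod ℓ) (Fin m → ZMod ℓ)) :=
    Finite.of_injective (fun L : Module.End (ZMod ℓ) (Fin m → ZMod ℓ) =>
      (L : (Fin m → ZMod ℓ) → (Fin m → ZMod ℓ))) DFunLike.coe_injective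
  have := Fintype.ofFinite (Module.End (ZMod ℓ) (Fin m → ZMod ℓ))
  have key : ∀ L : Module.End (ZMod ℓ) (Fin m → ZMod ℓ), ∃ P : ℕ,
      (∃ v : ℚ[X], Irreducible v ∧ L = lapf ℓ (fun k => (A k).map (Int.castRingHom ℚ)) v) →
      ∀ p : ℕ, [Fact p.Prime] → P ≤ p → ∃ w : (ZMod p)[X], Irreducible w ∧
        L = lapf ℓ (redA p A) w := by
    intro L
    by_cases hL : ∃ v : ℚ[X], Irreducible v ∧
        L = lapf ℓ (fun k => (A k).map (Int.castRingHom ℚ)) v
    · obtain ⟨v, hv, hLv⟩ := hL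
      obtain ⟨p₀, hp₀⟩ := tgn_tg A hA v hv
      refine ⟨p₀, fun _ p _ hp => ?_⟩
      obtain ⟨w, hw, h1⟩ := hp₀ p hp
      refine ⟨w, hw, ?_⟩
      rw [hLv]
      refine LinearMap.ext fun x => funext fun k => ?_
      show ∑ i, ((multiplicity v ((A k).map (Int.castRingHom ℚ) -
        (A i).map (Int.castRingHom ℚ)) : ℕ) : ZMod ℓ) * (x k - x i) =
        ∑ i, ((multiplicity w (redA p A k - redA p A i) : ℕ) : ZMod ℓ) * (x k - x i)
      refine Finset.sum_congr rfl fun i _ => ?_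
      by_cases hik : k = i
      · have h2 : x k - x i = 0 := by rw [hik, sub_self]
        rw [h2, mul_zero, mul_zero]
      · rw [h1 k i hik]
    · exact ⟨0, fun h => absurd h hL⟩
  choose P hP using key
  refine ⟨Finset.univ.sup P, fun p _ hp => ?_⟩
  intro f hf
  obtain ⟨g, hg, hgf⟩ := hG f hf
  refine ⟨g, ?_, hgf⟩
  refine Algebra.adjoin_mono ?_ hg
  intro L hL
  exact hP L hL p ((Finset.le_sup (Finset.mem_univ L)).trans hp)

theorem tg_dtv {m : ℕ} (A : Fin m → ℤ[X]) (hA : ∀ i k, i ≠ k → A i ≠ A k) {v : ℚ[X]}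
    (hv : Dtv (fun k => (A k).map (Int.castRingHom ℚ)) v) :
    ∃ p₀ : ℕ, ∀ p : ℕ, [Fact p.Prime] → p₀ ≤ p → ∃ w, Dtv (redA p A) w := by
  obtain ⟨hvi, i, k, hik, h6, h7⟩ := hv
  obtain ⟨p₀, hp₀⟩ := tgn_tg A hA v hvi
  refine ⟨p₀, fun p _ hp => ?_⟩
  obtain ⟨w, hw, h1⟩ := hp₀ p hp
  refine ⟨w, hw, i, k, hik, ?_, ?_⟩
  · rw [h1 i k hik]
    exact h6
  · intro a b hab h2 h3
    have h4 := h7 a b hab h2 h3
    rw [← multiplicity_eq_zero] at h4 ⊢
    rw [h1 a b hab]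
    exact h4

end Pool.Agent.H94.AT
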